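import Pool.Agent.Helper29.AR.Props
import Pool.Agent.Helper45.RC.DomM
import Pool.Agent.Helper62.SR.Disj

/-!
# MP_b55b7c_an: rank functions of sums and products (packet AR-Dim)
-/

open scoped ENNReal NNReal InnerProductSpace ComplexOrder
open Filter Topology

attribute [-instance] CStarMatrix.instAlgebra CStarMatrix.instModule CStarMatrix.instSMul
  CStarMatrix.instMulAction CStarMatrix.instDistribMulAction

set_option linter.unusedSectionVars false

noncomputable section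
namespace RC
universe u

namespace ArDim

variable {M : Type u} [CStarAlgebra M] [PartialOrder M] [StarOrderedRing M]

theorem one1_mul (a b : M) : one1 (a * b) = one1 a * one1 b := map_mul one1H a b

theorem one1_conj (a : M) : (one1 a).conjTranspose = one1 (star a) :=
  (map_star one1H a).symm

theorem one1_rsmul (r : ℝ) (a : M) : one1 (r • a) = r • one1 a := rfl

theorem one1_zero : one1 (0 : M) = 0 := map_zero one1H

theorem one1_mono {a b : M} (h : a ≤ b) : one1 a ≤ one1 b := by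
  have h1 : 0 ≤ one1H (b - a) := map_nonneg one1H (sub_nonneg.2 h)
  rw [map_sub] at h1
  exact sub_nonneg.1 h1

theorem one1_sum (n : ℕ) (l : Fin n → M) : one1 (∑ i, l i) = ∑ i, one1 (l i) :=
  map_sum one1H l Finset.univ

theorem dim_zero (h3 : QMonoP.{u}) (h5 : QBasicP.{u}) (σ : QTrace M) :
    σ.dim (one1 (0 : M)) = 0 := by
  rw [one1_zero]
  exact le_antisymm (domM_dim_zero h3 h5 σ Unit) (h5 M σ Unit 0 le_rfl).2.1

theorem dim_add (h1 : CuAddP.{u}) (h3 : QMonoP.{u}) (h4 : QDsumP.{u}) (σ : QTrace M)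
    (a b : M) (ha : 0 ≤ a) (hb : 0 ≤ b) :
    σ.dim (one1 (a + b)) ≤ σ.dim (one1 a) + σ.dim (one1 b) := by
  have e : one1 (a + b) = one1 a + one1 b := map_add one1H a b
  rw [e]
  exact domM_add h1 h3 h4 σ Unit _ _ (one1_nonneg ha) (one1_nonneg hb)

theorem dim_sum (h1 : CuAddP.{u}) (h3 : QMonoP.{u}) (h4 : QDsumP.{u}) (h5 : QBasicP.{u})
    (σ : QTrace M) {ι : Type} (s : Finset ι) (l : ι → M) (hl : ∀ i, 0 ≤ l i) :
    σ.dim (one1 (∑ i ∈ s, l i)) ≤ ∑ i ∈ s, σ.dim (one1 (l i)) := by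
  classical
  induction s using Finset.induction_on with
  | empty =>
    rw [Finset.sum_empty, Finset.sum_empty, dim_zero h3 h5 σ]
  | insert i s hi ih =>
    rw [Finset.sum_insert hi, Finset.sum_insert hi]
    refine (dim_add h1 h3 h4 σ _ _ (hl i) (Finset.sum_nonneg fun j _ => hl j)).trans ?_
    linarith

theorem dim_le (hLe : CuLeAddP.{u}) (h3 : QMonoP.{u}) (σ : QTrace M) (x y : M) (C : ℝ)
    (hx : 0 ≤ x) (hy : 0 ≤ y) (h : x ≤ C • y) : σ.dim (one1 x) ≤ σ.dim (one1 y) := by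
  have hC : x ≤ (max C 0) • y := h.trans (smul_le_smul_of_nonneg_right (le_max_left C 0) hy)
  have hC0 : 0 ≤ max C 0 := le_max_right C 0
  have h1 : one1 x ≤ (max C 0) • one1 y := one1_mono hC
  have hy1 : 0 ≤ one1 y := one1_nonneg hy
  have hx1 : 0 ≤ one1 x := one1_nonneg hx
  have hCy : 0 ≤ (max C 0) • one1 y := hx1.trans h1
  have h2 : Cu (cut (one1 x) 0) ((max C 0) • one1 y) := by
    refine hLe M Unit _ _ 0 le_rfl hx1 hCy ?_
    rw [zero_smul, add_zero]
    exact h1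
  rw [cut_zero hx1] at h2
  exact (h3 M σ Unit Unit _ _ hx1 hCy h2).trans
    (h3 M σ Unit Unit _ _ hCy hy1 (Disj.Cu_smul _ hC0))

theorem sq_pLq (L p q s : M) (hL : 0 ≤ L) (hs : star s = s) (hss : s * s = L) :
    sq (p * L * q) ≤ (‖p‖ ^ 2 * ‖L‖) • sq (s * q) := by
  have hLs : star L = L := hL.isSelfAdjoint
  have hpp : star p * p ≤ (‖p‖ ^ 2) • (1 : M) := by
    have := CStarAlgebra.star_mul_le_algebraMap_norm_sq (a := p)
    rwa [Algebra.algebraMap_eq_smul_one] at this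
  have hLL : L ≤ ‖L‖ • (1 : M) := by
    have := IsSelfAdjoint.le_algebraMap_norm_self (a := L) hL.isSelfAdjoint
    rwa [Algebra.algebraMap_eq_smul_one] at this
  have e1 : sq (p * L * q) = star (L * q) * (star p * p) * (L * q) := by
    show star (p * L * q) * (p * L * q) = _
    rw [star_mul, star_mul, star_mul]
    simp only [mul_assoc]
  have e2 : star (L * q) * ((‖p‖ ^ 2) • (1 : M)) * (L * q) =
      (‖p‖ ^ 2) • (star (s * q) * L * (s * q)) := by
    rw [mul_smul_comm, mul_one, smul_mul_assoc, star_mul, star_mul, hLs, hs]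
    congr 1
    rw [← hss]
    simp only [mul_assoc]
  have e3 : star (s * q) * (‖L‖ • (1 : M)) * (s * q) = ‖L‖ • sq (s * q) := by
    rw [mul_smul_comm, mul_one, smul_mul_assoc]
  calc sq (p * L * q) = star (L * q) * (star p * p) * (L * q) := e1
    _ ≤ star (L * q) * ((‖p‖ ^ 2) • (1 : M)) * (L * q) :=
        star_left_conjugate_le_conjugate hpp _
    _ = (‖p‖ ^ 2) • (star (s * q) * L * (s * q)) := e2
    _ ≤ (‖p‖ ^ 2) • (star (s * q) * (‖L‖ • (1 : M)) * (s * q)) :=
        smul_le_smul_of_nonneg_left (star_left_conjugate_le_conjugate hLL _) (by positivity)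
    _ = (‖p‖ ^ 2 * ‖L‖) • sq (s * q) := by rw [e3, smul_smul]

theorem sqsq_le (q s : M) (hs : star s = s) :
    (s * q) * star (s * q) ≤ (‖q‖ ^ 2) • (s * s) := by
  have hqq : q * star q ≤ (‖q‖ ^ 2) • (1 : M) := by
    have := CStarAlgebra.star_mul_le_algebraMap_norm_sq (a := star q)
    rwa [Algebra.algebraMap_eq_smul_one, star_star, norm_star] at this
  have e1 : (s * q) * star (s * q) = star s * (q * star q) * s := by
    rw [star_mul, hs]
    simp only [mul_assoc]
  have e2 : star s * ((‖q‖ ^ 2) • (1 : M)) * s = (‖q‖ ^ 2) • (s * s) := by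
    rw [mul_smul_comm, mul_one, smul_mul_assoc, hs]
  rw [e1, ← e2]
  exact star_left_conjugate_le_conjugate hqq _

theorem dim_swap (hSwap : CuSwapP.{u}) (h3 : QMonoP.{u}) (σ : QTrace M) (z : M) :
    σ.dim (one1 (sq z)) ≤ σ.dim (one1 (z * star z)) := by
  have h := hSwap M Unit Unit (one1 z).conjTranspose 0 le_rfl
  rw [cm_conj_conj, one1_conj, ← one1_mul, ← one1_mul] at h
  have n1 : 0 ≤ one1 (star z * z) := one1_nonneg (star_mul_self_nonneg z)
  have n2 : 0 ≤ one1 (z * star z) := one1_nonneg (mul_star_self_nonneg z)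
  rw [cut_zero n1, cut_zero n2] at h
  exact h3 M σ Unit Unit _ _ n1 n2 h

theorem dim_pLq (hLe : CuLeAddP.{u}) (hSwap : CuSwapP.{u}) (h3 : QMonoP.{u}) (σ : QTrace M)
    (L p q : M) (hL : 0 ≤ L) : σ.dim (one1 (sq (p * L * q))) ≤ σ.dim (one1 L) := by
  obtain ⟨s, hs0, hss⟩ : ∃ s : M, 0 ≤ s ∧ s * s = L :=
    ⟨CFC.sqrt L, CFC.sqrt_nonneg L, CFC.sqrt_mul_sqrt_self L hL⟩
  have hs : star s = s := hs0.isSelfAdjoint
  have h1 := dim_le hLe h3 σ _ _ _ (star_mul_self_nonneg _) (star_mul_self_nonneg (s * q))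
    (sq_pLq L p q s hL hs hss)
  have h2 := dim_swap hSwap h3 σ (s * q)
  have h4 := dim_le hLe h3 σ _ _ _ (mul_star_self_nonneg (s * q)) (hss ▸ hL : 0 ≤ s * s)
    (sqsq_le q s hs)
  rw [hss] at h4
  exact h1.trans (h2.trans h4)

end ArDim

open ArDim in
/-- Packet AR-Dim. -/
theorem dimP_of (h1 : CuAddP.{u}) (hLe : CuLeAddP.{u}) (hSwap : CuSwapP.{u}) (h3 : QMonoP.{u})
    (h4 : QDsumP.{u}) (h5 : QBasicP.{u}) : DimP.{u} := by
  intro M _ _ _ σ
  refine ⟨dim_zero h3 h5 σ, ?_, ?_, ?_⟩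
  · intro n l hl
    exact dim_sum h1 h3 h4 h5 σ Finset.univ l hl
  · intro L p q hL
    exact dim_pLq hLe hSwap h3 σ L p q hL
  · intro x y C hx hy h
    exact dim_le hLe h3 σ x y C hx hy h

end RC
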